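import Mathlib

/-!
[H21 TY NUM]  The choice of the parameters.

Proof.  We may assume `C ≥ 1` (prove it for `max C 1`, the condition and the conclusion get stronger:
`(C M)^(2M)` grows and `C(k,M)/(C M)^M` gets smaller).  `A = 16 * 3 * C` (`A/(16 C) = 3 > e`).  Choose `K ≥ 1`
with `K > 2^(m+1) m^2 (2 (log (32 A K))^2 + 32)` (possible as `(log K)^2 = o(K)`), and
`c = min of 1/(2AK)/2, 1/(16 K (log (2CK) + 4)), 1/(8 m A K), 1` (or anything smaller).
Given `ε`, `k` put `M = ⌈K/ε^2⌉₊` (so `K/ε^2 ≤ M ≤ 2K/ε^2`) and `R = ⌈k/(A M)⌉₊`.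
* `(C M)^(2M) ≤ k`: `2 M log (C M) ≤ (4K/ε^2)(log (2CK) + 2 log (1/ε)) ≤ (4K/ε^3)(log (2CK) + 4) ≤ 1/(c ε^3)
  ≤ log k` (`log (1/ε) ≤ 2 ε^(-1/2) ≤ 2/ε`).
* `k ≥ exp (1/(c ε^3)) ≥ 1/(c ε^3) ≥ 4 m A K/ε^2 ≥ 2 m A M`, so `R ≥ 2m`, `R ≤ k`, and `R ≤ 2k/(A M)`; and
  `R ≥ k/(A M) ≥ k ε^2/(2 A K) ≥ c ε^2 k`.
* Let `ρ = R/k ∈ [1/(A M), 2/(A M)]` and `Φ = (2^(m+1) m^2/ε) log (8 k/R) ≤ (2^(m+1) m^2/ε) log (8 A M)`.
  For `q ≤ M`: `C(k,q) ≤ k^q/q!`, `C(R,M-q) ≤ R^(M-q)/(M-q)!` (`Nat.choose_le_pow_div`),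
  `C(k,M) ≥ (k/2)^M/M!` (as `2M ≤ k`; e.g. `Nat.pow_sub_le_descFactorial` or `Nat.pow_le_choose`), so
  `C(k,q) C(R,M-q) ≤ C(k,M) 2^M C(M,q) ρ^(M-q) ≤ C(k,M) 4^M ρ^(M-q)`; for `q ≤ Φ` (and `ρ ≤ 1`):
  `ρ^(M-q) ≤ ρ^M (A M)^Φ` (`ρ^(-q) ≤ (A M)^q ≤ (A M)^Φ`).  The sum of at most `M + 1 ≤ 2^M` terms is
  `≤ C(k,M) (16/(A M))^M (A M)^Φ` and it remains to see `(16/(A M))^M (A M)^Φ < (C M)^(-M)`, i.e.
  `Φ log (A M) < M log 3` (`A = 48 C`): `Φ log (A M) ≤ (2^(m+1) m^2/ε) (log (8 A M))^2` and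
  `(log (8 A M))^2 ≤ (log (32 A K) + 2 log (1/ε))^2 ≤ 2 (log (32 A K))^2 + 8 (log (1/ε))^2 ≤
  (2 (log (32 A K))^2 + 32)/ε` (`(log (1/ε))^2 ≤ 4/ε`), so the left side is `< K/ε^2 ≤ M`.
-/

namespace Pool.Agent.H21.TY

open Finset

private theorem num_choiceK (B A : ℝ) (hB : 1 ≤ B) (hA : 1 ≤ A) :
    ∃ K : ℝ, 1 ≤ K ∧ B * (2 * (Real.log (16 * A * K)) ^ 2 + 32) < K := by
  obtain ⟨L, hL⟩ : ∃ L : ℝ, L = Real.log (16 * A) := ⟨_, rfl⟩
  have hL0 : 0 ≤ L := by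
    rw [hL]
    apply Real.log_nonneg
    linarith
  obtain ⟨v, hv⟩ : ∃ v : ℝ, v = 64 * B + B * (4 * L ^ 2 + 32) + 1 := ⟨_, rfl⟩
  have hBL : 0 ≤ B * (4 * L ^ 2 + 32) := by positivity
  have hv1 : 1 ≤ v := by linarith
  have hv0 : 0 < v := by linarith
  refine ⟨v ^ 4, one_le_pow₀ hv1, ?_⟩
  have h1 : Real.log (16 * A * v ^ 4) = L + 4 * Real.log v := by
    rw [Real.log_mul (by positivity) (by positivity), ← hL, Real.log_pow]
    push_cast
    ring
  have h2 : Real.log v ≤ v := by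
    have := Real.log_le_sub_one_of_pos hv0
    linarith
  have h3 : 0 ≤ Real.log v := Real.log_nonneg hv1
  have h4 : (L + 4 * Real.log v) ^ 2 ≤ 2 * L ^ 2 + 32 * v ^ 2 := by
    have h5 : (L + 4 * Real.log v) ^ 2 ≤ (L + 4 * v) ^ 2 := by gcongr
    have h6 : (L + 4 * v) ^ 2 ≤ 2 * L ^ 2 + 32 * v ^ 2 := by nlinarith [sq_nonneg (L - 4 * v)]
    linarith
  rw [h1]
  have h7 : B * (2 * (L + 4 * Real.log v) ^ 2 + 32) ≤
      B * (2 * (2 * L ^ 2 + 32 * v ^ 2) + 32) := by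
    apply mul_le_mul_of_nonneg_left _ (by linarith)
    linarith
  have hv2 : 1 ≤ v ^ 2 := one_le_pow₀ hv1
  have h8 : v ^ 2 * v ≤ v ^ 4 := by
    have : v ^ 4 = v ^ 2 * v ^ 2 := by ring
    rw [this]
    apply mul_le_mul_of_nonneg_left _ (by positivity)
    nlinarith
  have h9 : B * (2 * (2 * L ^ 2 + 32 * v ^ 2) + 32) < v ^ 2 * v := by
    have e1 : v ^ 2 * v = v ^ 2 * (64 * B + B * (4 * L ^ 2 + 32) + 1) := by
      conv_lhs => rw [hv]
      rw [← hv]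
    rw [e1]
    nlinarith
  linarith

private theorem num_logsq {ε : ℝ} (h0 : 0 < ε) (h1 : ε ≤ 1) : (Real.log (1 / ε)) ^ 2 ≤ 4 / ε := by
  have h2 : 1 ≤ 1 / ε := by
    rw [le_div_iff₀ h0]
    linarith
  obtain ⟨t, ht⟩ : ∃ t : ℝ, t = Real.sqrt (1 / ε) := ⟨_, rfl⟩
  have ht0 : 0 < t := by
    rw [ht]
    exact Real.sqrt_pos.2 (by positivity)
  have ht2 : t ^ 2 = 1 / ε := by
    rw [ht]
    exact Real.sq_sqrt (by positivity)
  have h3 : Real.log (1 / ε) = 2 * Real.log t := by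
    rw [← ht2, Real.log_pow]
    push_cast
    rfl
  have h4 : Real.log t ≤ t := by
    have := Real.log_le_sub_one_of_pos ht0
    linarith
  have h5 : 0 ≤ Real.log (1 / ε) := Real.log_nonneg h2
  have h6 : Real.log (1 / ε) ≤ 2 * t := by linarith
  calc (Real.log (1 / ε)) ^ 2 ≤ (2 * t) ^ 2 := by gcongr
    _ = 4 * t ^ 2 := by ring
    _ = 4 / ε := by rw [ht2]; ring

private theorem num_choose_ge {k M : ℕ} (h : 2 * M ≤ k) :
    (k : ℝ) ^ M ≤ 2 ^ M * ((M.factorial : ℝ) * (k.choose M : ℝ)) := by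
  have h1 : (k + 1 - M) ^ M ≤ k.descFactorial M := Nat.pow_sub_le_descFactorial k M
  rw [Nat.descFactorial_eq_factorial_mul_choose] at h1
  have h2 : (((k + 1 - M : ℕ) : ℝ)) ^ M ≤ (M.factorial : ℝ) * (k.choose M : ℝ) := by
    exact_mod_cast h1
  have h3 : (k : ℝ) ≤ 2 * ((k + 1 - M : ℕ) : ℝ) := by
    have : k ≤ 2 * (k + 1 - M) := by omega
    exact_mod_cast this
  calc (k : ℝ) ^ M ≤ (2 * ((k + 1 - M : ℕ) : ℝ)) ^ M := by gcongr
    _ = 2 ^ M * ((k + 1 - M : ℕ) : ℝ) ^ M := mul_pow _ _ _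
    _ ≤ _ := mul_le_mul_of_nonneg_left h2 (by positivity)

private theorem num_term {k M R q : ℕ} (h : 2 * M ≤ k) (hk : 0 < k) (hq : q ≤ M) :
    (k.choose q : ℝ) * (R.choose (M - q) : ℝ) ≤
      2 ^ M * (k.choose M : ℝ) * ((M.choose q : ℝ) * ((R : ℝ) / k) ^ (M - q)) := by
  have hk' : (0 : ℝ) < k := by exact_mod_cast hk
  have h1 : (k.choose q : ℝ) ≤ (k : ℝ) ^ q / (q.factorial : ℝ) := Nat.choose_le_pow_div q k
  have h2 : (R.choose (M - q) : ℝ) ≤ (R : ℝ) ^ (M - q) / ((M - q).factorial : ℝ) :=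
    Nat.choose_le_pow_div (M - q) R
  have h3 : (M.choose q : ℝ) * (q.factorial : ℝ) * ((M - q).factorial : ℝ) =
      (M.factorial : ℝ) := by
    exact_mod_cast Nat.choose_mul_factorial_mul_factorial hq
  have f1 : (0 : ℝ) < (q.factorial : ℝ) := by exact_mod_cast Nat.factorial_pos q
  have f2 : (0 : ℝ) < ((M - q).factorial : ℝ) := by exact_mod_cast Nat.factorial_pos (M - q)
  have f3 : (0 : ℝ) < (M.factorial : ℝ) := by exact_mod_cast Nat.factorial_pos M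
  have h4 := num_choose_ge h
  have h5 : (k : ℝ) ^ M = (k : ℝ) ^ q * (k : ℝ) ^ (M - q) := by
    rw [← pow_add]
    congr 1
    omega
  calc (k.choose q : ℝ) * (R.choose (M - q) : ℝ)
      ≤ ((k : ℝ) ^ q / (q.factorial : ℝ)) * ((R : ℝ) ^ (M - q) / ((M - q).factorial : ℝ)) :=
        mul_le_mul h1 h2 (by positivity) (by positivity)
    _ = ((k : ℝ) ^ M / (M.factorial : ℝ)) * ((M.choose q : ℝ) * ((R : ℝ) / k) ^ (M - q)) := by
        rw [h5, ← h3, div_pow]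
        have f4 : (0 : ℝ) < (M.choose q : ℝ) := by exact_mod_cast Nat.choose_pos hq
        field_simp
    _ ≤ (2 ^ M * (k.choose M : ℝ)) * ((M.choose q : ℝ) * ((R : ℝ) / k) ^ (M - q)) := by
        apply mul_le_mul_of_nonneg_right _ (by positivity)
        rw [div_le_iff₀ f3]
        linarith

private theorem num_sum {k M R : ℕ} (h : 2 * M ≤ k) (hR : 0 < R) (hRk : R ≤ k) (Φ : ℝ) :
    ∑ q ∈ (range (M + 1)).filter (fun q : ℕ => (q : ℝ) ≤ Φ),
      (k.choose q : ℝ) * (R.choose (M - q) : ℝ) ≤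
    (k.choose M : ℝ) * (4 ^ M * Real.exp (-((M - Φ) * Real.log ((k : ℝ) / R)))) := by
  have hR' : (0 : ℝ) < R := by exact_mod_cast hR
  have hk' : (0 : ℝ) < k := by exact_mod_cast (lt_of_lt_of_le hR hRk)
  have hRk' : (R : ℝ) ≤ k := by exact_mod_cast hRk
  obtain ⟨l, hl⟩ : ∃ l : ℝ, l = Real.log ((k : ℝ) / R) := ⟨_, rfl⟩
  have hl0 : 0 ≤ l := by
    rw [hl]
    apply Real.log_nonneg
    rw [le_div_iff₀ hR']
    linarith
  have hexp : (R : ℝ) / k = Real.exp (-l) := by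
    rw [hl, ← Real.log_inv, inv_div, Real.exp_log (by positivity)]
  rw [← hl]
  have h1 : ∀ q ∈ (range (M + 1)).filter (fun q : ℕ => (q : ℝ) ≤ Φ),
      (k.choose q : ℝ) * (R.choose (M - q) : ℝ) ≤
      (2 ^ M * (k.choose M : ℝ) * Real.exp (-((M - Φ) * l))) * (M.choose q : ℝ) := by
    intro q hq
    rw [mem_filter, mem_range] at hq
    have hqM : q ≤ M := by omega
    refine (num_term h (lt_of_lt_of_le hR hRk) hqM).trans ?_
    have h2 : ((R : ℝ) / k) ^ (M - q) ≤ Real.exp (-((M - Φ) * l)) := by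
      rw [hexp, ← Real.exp_nat_mul, Real.exp_le_exp, Nat.cast_sub hqM]
      nlinarith [hq.2]
    calc 2 ^ M * (k.choose M : ℝ) * ((M.choose q : ℝ) * ((R : ℝ) / k) ^ (M - q))
        ≤ 2 ^ M * (k.choose M : ℝ) * ((M.choose q : ℝ) * Real.exp (-((M - Φ) * l))) := by
          gcongr
      _ = _ := by ring
  refine (sum_le_sum h1).trans ?_
  rw [← mul_sum]
  have h3 : ∑ q ∈ (range (M + 1)).filter (fun q : ℕ => (q : ℝ) ≤ Φ), (M.choose q : ℝ) ≤ 2 ^ M := by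
    calc _ ≤ ∑ q ∈ range (M + 1), (M.choose q : ℝ) :=
          sum_le_sum_of_subset_of_nonneg (filter_subset _ _) (fun _ _ _ => by positivity)
      _ = 2 ^ M := by exact_mod_cast Nat.sum_range_choose M
  calc (2 ^ M * (k.choose M : ℝ) * Real.exp (-((M - Φ) * l))) *
        ∑ q ∈ (range (M + 1)).filter (fun q : ℕ => (q : ℝ) ≤ Φ), (M.choose q : ℝ)
      ≤ (2 ^ M * (k.choose M : ℝ) * Real.exp (-((M - Φ) * l))) * 2 ^ M :=
        mul_le_mul_of_nonneg_left h3 (by positivity)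
    _ = _ := by
        have : (4 : ℝ) ^ M = 2 ^ M * 2 ^ M := by
          rw [← mul_pow]
          norm_num
        rw [this]
        ring

private theorem num_log2 {x ε : ℝ} (hx : 0 < x) (hε : 0 < ε) :
    Real.log x + 2 * Real.log (1 / ε) = Real.log (x * (1 / ε) ^ 2) := by
  rw [Real.log_mul hx.ne' (by positivity), Real.log_pow]
  push_cast
  rfl

private theorem num_one (C : ℝ) (hC : 1 ≤ C) (m : ℕ) (hm : 2 ≤ m) :
    ∃ c : ℝ, 0 < c ∧ ∀ ε : ℝ, 0 < ε → ε ≤ 1 → ∀ k : ℕ, Real.exp (1 / (c * ε ^ 3)) ≤ (k : ℝ) →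
      ∃ M R : ℕ, 1 ≤ M ∧ (C * M) ^ (2 * M) ≤ (k : ℝ) ∧ 2 * m ≤ R ∧ R ≤ k ∧
        c * ε ^ 2 * (k : ℝ) ≤ (R : ℝ) ∧
        ∑ q ∈ (range (M + 1)).filter (fun q : ℕ => (q : ℝ) ≤
          (2 ^ (m + 1) * (m : ℝ) ^ 2 / ε) * Real.log (8 * k / R)),
          (k.choose q : ℝ) * (R.choose (M - q) : ℝ) < (k.choose M : ℝ) / (C * M) ^ M := by
  obtain ⟨B, hB⟩ : ∃ B : ℝ, B = 2 ^ (m + 1) * (m : ℝ) ^ 2 := ⟨_, rfl⟩
  have hm' : (2 : ℝ) ≤ m := by exact_mod_cast hm
  have hB1 : 1 ≤ B := by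
    rw [hB]
    have h1 : (1 : ℝ) ≤ 2 ^ (m + 1) := one_le_pow₀ (by norm_num)
    have h2 : (1 : ℝ) ≤ (m : ℝ) ^ 2 := one_le_pow₀ (by linarith)
    exact one_le_mul_of_one_le_of_one_le h1 h2
  obtain ⟨A, hA⟩ : ∃ A : ℝ, A = 48 * C := ⟨_, rfl⟩
  have hA48 : 48 ≤ A := by linarith
  obtain ⟨K, hK1, hK⟩ := num_choiceK B A hB1 (by linarith)
  obtain ⟨D, hD⟩ : ∃ D : ℝ, D = 4 * K * (Real.log (2 * C * K) + 2) + 4 * m * A * K := ⟨_, rfl⟩
  have hlogCK : 0 ≤ Real.log (2 * C * K) := by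
    apply Real.log_nonneg
    nlinarith
  have hD1 : 4 * K * (Real.log (2 * C * K) + 2) ≤ D := by
    rw [hD]
    have : 0 ≤ 4 * m * A * K := by positivity
    linarith
  have hD2 : 4 * m * A * K ≤ D := by
    rw [hD]
    have : 0 ≤ 4 * K * (Real.log (2 * C * K) + 2) := by positivity
    linarith
  have hAK : 48 ≤ A * K := by nlinarith
  have hD0 : 0 < D := by nlinarith
  refine ⟨1 / D, by positivity, ?_⟩
  intro ε hε hε1 k hk
  have hDe : 1 / (1 / D * ε ^ 3) = D / ε ^ 3 := by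
    field_simp
  rw [hDe] at hk
  have hk0 : (0 : ℝ) < k := lt_of_lt_of_le (Real.exp_pos _) hk
  obtain ⟨M, hM⟩ : ∃ M : ℕ, M = ⌈K / ε ^ 2⌉₊ := ⟨_, rfl⟩
  have hKe : 1 ≤ K / ε ^ 2 := by
    rw [le_div_iff₀ (by positivity)]
    have : ε ^ 2 ≤ 1 := pow_le_one₀ hε.le hε1
    linarith
  have hM1 : K / ε ^ 2 ≤ M := by
    rw [hM]
    exact Nat.le_ceil _
  have hM2 : (M : ℝ) ≤ 2 * K / ε ^ 2 := by
    have h1 : (M : ℝ) < K / ε ^ 2 + 1 := by
      rw [hM]
      exact Nat.ceil_lt_add_one (by positivity)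
    have h2 : 2 * K / ε ^ 2 = K / ε ^ 2 + K / ε ^ 2 := by ring
    linarith
  have hMr1 : (1 : ℝ) ≤ M := by linarith
  have hMn1 : 1 ≤ M := by exact_mod_cast hMr1
  have hMr0 : (0 : ℝ) < M := by linarith
  have hAM : 48 ≤ A * M := by nlinarith
  have hCM : 1 ≤ C * M := by nlinarith
  -- k is large
  have hkbig : 2 * m * (A * M) ≤ (k : ℝ) := by
    have h1 : D / ε ^ 3 + 1 ≤ Real.exp (D / ε ^ 3) := Real.add_one_le_exp _
    have h2 : D / ε ^ 2 ≤ D / ε ^ 3 := by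
      apply div_le_div_of_nonneg_left hD0.le (by positivity)
      calc ε ^ 3 = ε ^ 2 * ε := by ring
        _ ≤ ε ^ 2 * 1 := mul_le_mul_of_nonneg_left hε1 (by positivity)
        _ = ε ^ 2 := mul_one _
    have h3 : 4 * m * A * K / ε ^ 2 ≤ D / ε ^ 2 := by gcongr
    have h4 : 2 * m * (A * M) ≤ 4 * m * A * K / ε ^ 2 := by
      calc 2 * m * (A * M) ≤ 2 * m * (A * (2 * K / ε ^ 2)) := by gcongr
        _ = _ := by ring
    linarith
  obtain ⟨R, hR⟩ : ∃ R : ℕ, R = ⌈(k : ℝ) / (A * M)⌉₊ := ⟨_, rfl⟩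
  have hkAM : 2 * (m : ℝ) ≤ k / (A * M) := by
    rw [le_div_iff₀ (by positivity)]
    exact hkbig
  have hR1 : (k : ℝ) / (A * M) ≤ R := by
    rw [hR]
    exact Nat.le_ceil _
  have hR2 : (R : ℝ) ≤ 2 * k / (A * M) := by
    have h1 : (R : ℝ) < k / (A * M) + 1 := by
      rw [hR]
      exact Nat.ceil_lt_add_one (by positivity)
    have h2 : 2 * (k : ℝ) / (A * M) = k / (A * M) + k / (A * M) := by ring
    linarith
  have hRm : 2 * (m : ℝ) ≤ R := hkAM.trans hR1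
  have hR0 : (0 : ℝ) < R := by linarith
  have hRk : (R : ℝ) ≤ k := by
    refine hR2.trans ?_
    rw [div_le_iff₀ (by positivity)]
    nlinarith
  refine ⟨M, R, hMn1, ?_, by exact_mod_cast hRm, by exact_mod_cast hRk, ?_, ?_⟩
  · -- (C M)^(2M) ≤ k
    have hCM0 : 0 < C * M := by linarith
    have hle : 0 ≤ Real.log (1 / ε) := by
      apply Real.log_nonneg
      rw [le_div_iff₀ hε]
      linarith
    have hle2 : Real.log (1 / ε) ≤ 1 / ε := by
      have := Real.log_le_sub_one_of_pos (show (0 : ℝ) < 1 / ε by positivity)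
      linarith
    have h1 : Real.log (C * M) ≤ Real.log (2 * C * K) + 2 * Real.log (1 / ε) := by
      have e1 : Real.log (2 * C * K) + 2 * Real.log (1 / ε) = Real.log (2 * C * K * (1 / ε) ^ 2) :=
        num_log2 (by positivity) hε
      rw [e1]
      apply Real.log_le_log hCM0
      calc C * M ≤ C * (2 * K / ε ^ 2) := by gcongr
        _ = _ := by
          field_simp
    have h0 : 0 ≤ Real.log (C * M) := Real.log_nonneg hCM
    have h2 : 2 * (M : ℝ) * Real.log (C * M) ≤ D / ε ^ 3 := by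
      calc 2 * (M : ℝ) * Real.log (C * M)
          ≤ 2 * (2 * K / ε ^ 2) * (Real.log (2 * C * K) + 2 * Real.log (1 / ε)) := by
            gcongr
        _ ≤ 2 * (2 * K / ε ^ 2) * ((Real.log (2 * C * K) + 2) * (1 / ε)) := by
            apply mul_le_mul_of_nonneg_left _ (by positivity)
            have h3 : 1 ≤ 1 / ε := by
              rw [le_div_iff₀ hε]
              linarith
            nlinarith
        _ = 4 * K * (Real.log (2 * C * K) + 2) / ε ^ 3 := by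
            field_simp
            ring
        _ ≤ D / ε ^ 3 := by gcongr
    have h4 : (C * M) ^ (2 * M) = Real.exp (2 * (M : ℝ) * Real.log (C * M)) := by
      rw [← Real.rpow_natCast, Real.rpow_def_of_pos hCM0]
      push_cast
      ring_nf
    rw [h4]
    exact (Real.exp_le_exp.2 h2).trans hk
  · -- R ≥ ε² k / D
    refine le_trans ?_ hR1
    rw [le_div_iff₀ (by positivity)]
    have h1 : A * M ≤ D / ε ^ 2 := by
      calc A * M ≤ A * (2 * K / ε ^ 2) := by gcongr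
        _ = 2 * A * K / ε ^ 2 := by ring
        _ ≤ D / ε ^ 2 := by
          gcongr
          nlinarith
    calc 1 / D * ε ^ 2 * (k : ℝ) * (A * M) ≤ 1 / D * ε ^ 2 * (k : ℝ) * (D / ε ^ 2) := by gcongr
      _ = (k : ℝ) := by field_simp
  · -- the sum
    rw [← hB]
    have h2M : 2 * M ≤ k := by
      have h1 : 2 * (M : ℝ) ≤ k := by
        refine le_trans ?_ hkbig
        have : (1 : ℝ) ≤ m * A := by nlinarith
        nlinarith
      exact_mod_cast h1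
    have hRn0 : 0 < R := by exact_mod_cast hR0
    have hRkn : R ≤ k := by exact_mod_cast hRk
    have hkM : (0 : ℝ) < k.choose M := by
      exact_mod_cast Nat.choose_pos (by omega)
    have hCM0 : 0 < C * M := by linarith
    refine lt_of_le_of_lt (num_sum h2M hRn0 hRkn _) ?_
    obtain ⟨l, hl⟩ : ∃ l : ℝ, l = Real.log ((k : ℝ) / R) := ⟨_, rfl⟩
    rw [← hl]
    obtain ⟨Φ, hΦ⟩ : ∃ Φ : ℝ, Φ = B / ε * Real.log (8 * k / R) := ⟨_, rfl⟩
    rw [← hΦ]
    -- bounds for l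
    have hkR1 : A * M / 2 ≤ k / R := by
      rw [le_div_iff₀ hR0]
      rw [le_div_iff₀ (by positivity)] at hR2
      linarith
    have hkR2 : k / R ≤ A * M := by
      rw [div_le_iff₀ hR0]
      rw [div_le_iff₀ (by positivity)] at hR1
      linarith
    have hl1 : Real.log 24 + Real.log (C * M) ≤ l := by
      rw [← Real.log_mul (by norm_num) hCM0.ne', hl]
      apply Real.log_le_log (by positivity)
      refine le_trans (le_of_eq ?_) hkR1
      rw [hA]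
      ring
    have hl2 : l ≤ Real.log (8 * (A * M)) := by
      rw [hl]
      apply Real.log_le_log (by positivity)
      refine hkR2.trans ?_
      linarith
    have hl3 : Real.log (8 * k / R) ≤ Real.log (8 * (A * M)) := by
      apply Real.log_le_log (by positivity)
      rw [mul_div_assoc]
      linarith
    have hl4 : 0 ≤ Real.log (8 * (A * M)) := by
      apply Real.log_nonneg
      linarith
    have hl0 : 0 ≤ l := by
      have h1 : 0 ≤ Real.log 24 := Real.log_nonneg (by norm_num)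
      have h2 : 0 ≤ Real.log (C * M) := Real.log_nonneg hCM
      linarith
    have hll : Real.log (8 * (A * M)) ≤ Real.log (16 * A * K) + 2 * Real.log (1 / ε) := by
      have e1 : Real.log (16 * A * K) + 2 * Real.log (1 / ε) = Real.log (16 * A * K * (1 / ε) ^ 2) :=
        num_log2 (by positivity) hε
      rw [e1]
      apply Real.log_le_log (by positivity)
      calc 8 * (A * M) ≤ 8 * (A * (2 * K / ε ^ 2)) := by gcongr
        _ = _ := by
          field_simp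
          ring
    have hsq : (Real.log (8 * (A * M))) ^ 2 ≤ (2 * (Real.log (16 * A * K)) ^ 2 + 32) / ε := by
      have h1 : (Real.log (8 * (A * M))) ^ 2 ≤
          (Real.log (16 * A * K) + 2 * Real.log (1 / ε)) ^ 2 := by gcongr
      have h2 : (Real.log (16 * A * K) + 2 * Real.log (1 / ε)) ^ 2 ≤
          2 * (Real.log (16 * A * K)) ^ 2 + 8 * (Real.log (1 / ε)) ^ 2 := by
        nlinarith [sq_nonneg (Real.log (16 * A * K) - 2 * Real.log (1 / ε))]
      have h3 := num_logsq hε hε1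
      have h4 : 2 * (Real.log (16 * A * K)) ^ 2 ≤ 2 * (Real.log (16 * A * K)) ^ 2 / ε := by
        rw [le_div_iff₀ hε]
        have : 0 ≤ 2 * (Real.log (16 * A * K)) ^ 2 := by positivity
        nlinarith
      have h5 : 8 * (Real.log (1 / ε)) ^ 2 ≤ 32 / ε := by
        calc 8 * (Real.log (1 / ε)) ^ 2 ≤ 8 * (4 / ε) := by gcongr
          _ = 32 / ε := by ring
      rw [add_div]
      linarith
    have hΦl : Φ * l < M := by
      calc Φ * l ≤ (B / ε * Real.log (8 * (A * M))) * Real.log (8 * (A * M)) := by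
            rw [hΦ]
            gcongr
        _ = B / ε * (Real.log (8 * (A * M))) ^ 2 := by ring
        _ ≤ B / ε * ((2 * (Real.log (16 * A * K)) ^ 2 + 32) / ε) := by gcongr
        _ = B * (2 * (Real.log (16 * A * K)) ^ 2 + 32) / ε ^ 2 := by
            field_simp
        _ < K / ε ^ 2 := by gcongr
        _ ≤ M := hM1
    have hlog6 : 1 ≤ Real.log 6 := by
      rw [Real.le_log_iff_exp_le (by norm_num)]
      have := Real.exp_one_lt_d9
      linarith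
    have hlog24 : Real.log 24 = Real.log 4 + Real.log 6 := by
      rw [← Real.log_mul (by norm_num) (by norm_num)]
      norm_num
    have hkey : (M : ℝ) * Real.log 4 + (M : ℝ) * Real.log (C * M) < (M - Φ) * l := by
      have h1 : (M : ℝ) * (Real.log 24 + Real.log (C * M)) ≤ M * l := by gcongr
      rw [hlog24] at h1
      nlinarith
    have h4 : (4 : ℝ) ^ M = Real.exp ((M : ℝ) * Real.log 4) := by
      rw [Real.exp_nat_mul, Real.exp_log (by norm_num)]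
    have h5 : (C * M) ^ M = Real.exp ((M : ℝ) * Real.log (C * M)) := by
      rw [Real.exp_nat_mul, Real.exp_log hCM0]
    rw [lt_div_iff₀ (by positivity), mul_assoc]
    have h6 : 4 ^ M * Real.exp (-((M - Φ) * l)) * (C * M) ^ M < 1 := by
      rw [h4, h5, ← Real.exp_add, ← Real.exp_add, Real.exp_lt_one_iff]
      linarith
    calc (k.choose M : ℝ) * (4 ^ M * Real.exp (-((M - Φ) * l)) * (C * M) ^ M)
        < (k.choose M : ℝ) * 1 := by
          apply mul_lt_mul_of_pos_left h6 hkM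
      _ = _ := mul_one _

theorem num (C : ℝ) (hC : 0 < C) (m : ℕ) (hm : 2 ≤ m) :
    ∃ c : ℝ, 0 < c ∧ ∀ ε : ℝ, 0 < ε → ε ≤ 1 → ∀ k : ℕ, Real.exp (1 / (c * ε ^ 3)) ≤ (k : ℝ) →
      ∃ M R : ℕ, 1 ≤ M ∧ (C * M) ^ (2 * M) ≤ (k : ℝ) ∧ 2 * m ≤ R ∧ R ≤ k ∧
        c * ε ^ 2 * (k : ℝ) ≤ (R : ℝ) ∧
        ∑ q ∈ (range (M + 1)).filter (fun q : ℕ => (q : ℝ) ≤
          (2 ^ (m + 1) * (m : ℝ) ^ 2 / ε) * Real.log (8 * k / R)),
          (k.choose q : ℝ) * (R.choose (M - q) : ℝ) < (k.choose M : ℝ) / (C * M) ^ M := by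
  obtain ⟨c, hc, h⟩ := num_one (max C 1) (le_max_right _ _) m hm
  refine ⟨c, hc, fun ε hε hε1 k hk => ?_⟩
  obtain ⟨M, R, h1, h2, h3, h4, h5, h6⟩ := h ε hε hε1 k hk
  have hM : (1 : ℝ) ≤ M := by exact_mod_cast h1
  have hCM : C * M ≤ max C 1 * M := mul_le_mul_of_nonneg_right (le_max_left _ _) (by linarith)
  refine ⟨M, R, h1, ?_, h3, h4, h5, lt_of_lt_of_le h6 ?_⟩
  · exact le_trans (pow_le_pow_left₀ (by positivity) hCM _) h2
  · apply div_le_div_of_nonneg_left (by positivity) (by positivity)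
    exact pow_le_pow_left₀ (by positivity) hCM _

end Pool.Agent.H21.TY
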