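import Pool.Agent.H21.TY.Cont
import Pool.Agent.H21.TY.Num
import Pool.Agent.H21.TX.Fin

/-!
In every large admissible set `H` there is a subset `S` of positive proportion such that almost all
`m`-subsets of `S` are shattered by the primes of one colour.
-/

namespace Pool.Agent.H21.TY

open Finset Pool.Agent.H21.TX

theorem shat_mono {r : ℕ} (c : ℕ → Fin r) (i : Fin r) {X Y : Finset ℕ} (hXY : X ⊆ Y)
    (h : Shat c i Y) : Shat c i X := by
  intro F hF
  refine (h F (hF.trans hXY)).mono ?_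
  intro N hN a ha
  exact hN a (hXY ha)

open Classical in
theorem almost_all (r m : ℕ) (hm : 2 ≤ m) : ∃ c : ℝ, 0 < c ∧ ∀ ε : ℝ, 0 < ε → ε ≤ 1 →
    ∀ H : Finset ℕ, (∀ p : ℕ, p.Prime → ∃ a : ℕ, ∀ h ∈ H, ¬ p ∣ a + h) →
    Real.exp (1 / (c * ε ^ 3)) ≤ (H.card : ℝ) → ∀ col : ℕ → Fin r,
    ∃ (i : Fin r) (S : Finset ℕ), S ⊆ H ∧ c * ε ^ 2 * (H.card : ℝ) ≤ (S.card : ℝ) ∧
      (1 - ε) * (S.card.choose m : ℝ) ≤
        (((powersetCard m S).filter (fun B => Shat col i B)).card : ℝ) := by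
  obtain ⟨C, hC, hden⟩ := shatter_density r
  obtain ⟨c, hc, hnum⟩ := num C hC m hm
  refine ⟨c, hc, ?_⟩
  intro ε hε hε1 H hadm hH col
  obtain ⟨M, R, hM, hk, hR, hRk, hcR, hsum⟩ := hnum ε hε hε1 H.card hH
  obtain ⟨i, hi⟩ := hden H hadm col M hM hk
  by_contra hcon
  push Not at hcon
  have hbad : ∀ S ⊆ H, R ≤ S.card →
      (gcount (fun B => Shat col i B) ∅ S m : ℝ) ≤ (1 - ε) * (S.card.choose m : ℝ) := by
    intro S hS hRS
    have h1 : c * ε ^ 2 * (H.card : ℝ) ≤ (S.card : ℝ) :=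
      hcR.trans (by exact_mod_cast hRS)
    have h2 := hcon i S hS h1
    unfold gcount
    simp only [Finset.empty_union]
    exact h2.le
  have h3 := cont (fun B => Shat col i B) (fun X Y hXY hY => shat_mono col i hXY hY) H m R M ε hε hε1
    hm hR hRk hbad
  have h4 := lt_of_le_of_lt h3 hsum
  exact absurd hi (not_le.mpr h4)

end Pool.Agent.H21.TY
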