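import Pool.Agent.H21.TY.Pick

/-!
[H21 TY CONT]  The container bound (Kleitman-Winston for down-closed families).

Proof.  Let `α = 2^(m+1)/ε`, `ρ s = C(R,s)/4` (positive for `s < m ≤ R`),
`Λ s g = Real.log (max g (ρ s) / ρ s) ≥ 0` (monotone in `g`) and
`Φ(Q,S) = α * ∑ s ∈ Ico 1 m, Λ s (gcount 𝒞 Q S s)`.
CLAIM: for all `Q`, `S ⊆ H`, with `𝒞 (insert y Q)` for all `y ∈ S`, and all `j`:
`gcount 𝒞 Q S j ≤ ∑ q ∈ (range (j+1)).filter (fun q => (q:ℝ) ≤ Φ(Q,S)), C(|S|,q) * C(R,j-q)`.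
Induction on `|S|`.
* If `|S| < R` or `j = 0`: `gcount ≤ C(|S|,j) ≤ C(R,j)` = the term `q = 0` (`Φ ≥ 0`).
* If `|S| ≥ R` and `j ≥ 1`: `gcount 𝒞 Q S m ≤ gcount 𝒞 ∅ S m ≤ (1-ε) C(|S|,m)` (`gcount_mono`, `hbad`), so
`pick` gives `s`, `v`.  Let `S₁ = S.erase v`, `Q₂ = insert v Q`,
`S₂ = S₁.filter (fun y => 𝒞 (insert y Q₂))`.  A set `J ∈ powersetCard j S` with `𝒞 (Q ∪ J)` either avoids
`v` (then `J ⊆ S₁`) or contains it (then `J.erase v ⊆ S₂` and `𝒞 (Q₂ ∪ J.erase v)`):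
`gcount 𝒞 Q S j ≤ gcount 𝒞 Q S₁ j + gcount 𝒞 Q₂ S₂ (j-1)`.
`Φ(Q,S₁) ≤ Φ(Q,S)` by monotonicity.  `Φ(Q₂,S₂) ≤ Φ(Q,S) - 1`: all `gcount` decrease; for the `s` of `pick`:
`g = gcount 𝒞 Q S s > (1 - ε/2^(m-s)) C(n,s) ≥ C(n,s)/2 ≥ C(R,s)/2 = 2 ρ s` (`n = |S| ≥ R`, `ε ≤ 1`, `s < m`)
and `g' = gcount 𝒞 Q₂ S₂ s ≤ gcount 𝒞 Q₂ S₁ s ≤ g - ε/2^(m+1-s) C(n,s) ≤ g (1 - x)`,
`x = ε/2^(m+1-s) ≤ 1/4` (`g ≤ C(n,s)`, `m+1-s ≥ 2`).  `Λ s g - Λ s g' ≥ x`: if `g' ≥ ρ s` it is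
`log (g/g') ≥ -log (1-x) ≥ x`, otherwise `log (g/ρ s) ≥ log 2 ≥ 1/4 ≥ x`.  And `α x ≥ 2^(s) ≥ 1`
(`2^(m+1)/2^(m+1-s) = 2^s`).
Both induction hypotheses and `C(n-1,q) + C(n-1,q-1) = C(n,q)` (`Nat.choose_succ_succ`), where
`|S₁| = n - 1`, `|S₂| ≤ n - 1`, `q ≤ Φ - 1 ↔ q + 1 ≤ Φ`, `j - 1 - q = j - (q+1)`, give the claim for `S`.
Apply the claim to `Q = ∅`, `S = H' := H.filter (fun y => 𝒞 {y})` (sets `X ⊆ H` in `𝒞` are subsets of
`H'`), `|H'| ≤ |H|`, and `Φ(∅,H') ≤ Φ₀ = (2^(m+1) m^2/ε) log (8 |H|/R)`: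
`gcount ≤ C(|H|,s)`, `C(|H|,s)/C(R,s) ≤ (2|H|/R)^s` for `s ≤ R/2`, `R ≤ |H|`, so
`Λ s ≤ log 4 + s log (2|H|/R) ≤ m log (8 |H|/R)` for `1 ≤ s < m`, and there are `< m` values of `s`.
(If `|H| < R` the claim is used with `gcount ≤ C(R,M)`; to have `Φ₀ ≥ 0` we assume `R ≤ |H|`.)
-/

namespace Pool.Agent.H21.TY

open Finset

private noncomputable def cRho (R s : ℕ) : ℝ := (R.choose s : ℝ) / 4

private lemma cRho_pos {R s : ℕ} (h : s ≤ R) : 0 < cRho R s := by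
  unfold cRho
  have : (0 : ℝ) < (R.choose s : ℝ) := by exact_mod_cast Nat.choose_pos h
  positivity

private noncomputable def cLam (R s : ℕ) (g : ℝ) : ℝ := Real.log (max g (cRho R s) / cRho R s)

private lemma cLam_mono {R s : ℕ} (h : s ≤ R) {g g' : ℝ} (hg : g' ≤ g) :
    cLam R s g' ≤ cLam R s g := by
  have hr := cRho_pos h
  unfold cLam
  refine Real.log_le_log ?_ ?_
  · exact div_pos (lt_of_lt_of_le hr (le_max_right _ _)) hr
  · exact div_le_div_of_nonneg_right (max_le_max_right _ hg) hr.le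

private lemma cLam_nonneg {R s : ℕ} (h : s ≤ R) (g : ℝ) : 0 ≤ cLam R s g := by
  have hr := cRho_pos h
  unfold cLam
  refine Real.log_nonneg ?_
  rw [le_div_iff₀ hr, one_mul]
  exact le_max_right _ _

private lemma cLam_drop {R s : ℕ} (h : s ≤ R) {g g' x : ℝ} (hx0 : 0 ≤ x) (hx : x ≤ 1 / 4)
    (hg : 2 * cRho R s ≤ g) (hg' : g' ≤ g * (1 - x)) :
    cLam R s g' ≤ cLam R s g - x := by
  have hr := cRho_pos h
  have hgp : 0 < g := by linarith
  unfold cLam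
  have h1 : max g' (cRho R s) ≤ g * (1 - x) := by
    refine max_le hg' ?_
    nlinarith
  have h2 : 0 < max g' (cRho R s) := lt_of_lt_of_le hr (le_max_right _ _)
  have h3 : Real.log (max g' (cRho R s) / cRho R s) ≤ Real.log (g / cRho R s * (1 - x)) := by
    refine Real.log_le_log (div_pos h2 hr) ?_
    rw [div_mul_eq_mul_div]
    exact div_le_div_of_nonneg_right h1 hr.le
  have h4 : Real.log (g / cRho R s * (1 - x)) = Real.log (g / cRho R s) + Real.log (1 - x) :=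
    Real.log_mul (div_pos hgp hr).ne' (by
      have : 0 < 1 - x := by linarith
      exact this.ne')
  have h5 : Real.log (1 - x) ≤ -x := by
    have := Real.log_le_sub_one_of_pos (show (0 : ℝ) < 1 - x by linarith)
    linarith
  have h6 : max g (cRho R s) = g := max_eq_left (by linarith)
  rw [h6]
  linarith

private noncomputable def cPhi (𝒞 : Finset ℕ → Prop) (m R : ℕ) (ε : ℝ) (Q S : Finset ℕ) : ℝ :=
  2 ^ (m + 1) / ε * ∑ s ∈ Ico 1 m, cLam R s (gcount 𝒞 Q S s)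

private lemma cPhi_nonneg (𝒞 : Finset ℕ → Prop) {m R : ℕ} {ε : ℝ} (hε : 0 < ε) (hR : 2 * m ≤ R)
    (Q S : Finset ℕ) : 0 ≤ cPhi 𝒞 m R ε Q S := by
  unfold cPhi
  refine mul_nonneg (by positivity) (sum_nonneg fun s hs => cLam_nonneg ?_ _)
  rw [mem_Ico] at hs
  omega

private lemma cPhi_mono (𝒞 : Finset ℕ → Prop) (h𝒞 : ∀ X Y : Finset ℕ, X ⊆ Y → 𝒞 Y → 𝒞 X)
    {m R : ℕ} {ε : ℝ} (hε : 0 < ε) (hR : 2 * m ≤ R)
    {Q Q' S S' : Finset ℕ} (hQ : Q ⊆ Q') (hS : S' ⊆ S) :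
    cPhi 𝒞 m R ε Q' S' ≤ cPhi 𝒞 m R ε Q S := by
  unfold cPhi
  refine mul_le_mul_of_nonneg_left (sum_le_sum fun s hs => cLam_mono ?_ ?_) (by positivity)
  · rw [mem_Ico] at hs
    omega
  · exact_mod_cast gcount_mono 𝒞 h𝒞 hQ hS s

private lemma cPhi_drop (𝒞 : Finset ℕ → Prop) (h𝒞 : ∀ X Y : Finset ℕ, X ⊆ Y → 𝒞 Y → 𝒞 X)
    {m R : ℕ} {ε : ℝ} (hε : 0 < ε) (hR : 2 * m ≤ R)
    {Q Q' S S' : Finset ℕ} (hQ : Q ⊆ Q') (hS : S' ⊆ S) {s : ℕ} (hs1 : 1 ≤ s) (hsm : s < m)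
    (hd : cLam R s (gcount 𝒞 Q' S' s) ≤ cLam R s (gcount 𝒞 Q S s) - ε / 2 ^ (m + 1 - s)) :
    cPhi 𝒞 m R ε Q' S' ≤ cPhi 𝒞 m R ε Q S - 1 := by
  have h1 : ∀ t ∈ Ico 1 m, 0 ≤ cLam R t (gcount 𝒞 Q S t) - cLam R t (gcount 𝒞 Q' S' t) := by
    intro t ht
    rw [mem_Ico] at ht
    have h2 : cLam R t (gcount 𝒞 Q' S' t) ≤ cLam R t (gcount 𝒞 Q S t) := by
      refine cLam_mono (by omega) ?_
      exact_mod_cast gcount_mono 𝒞 h𝒞 hQ hS t
    linarith
  have h3 := single_le_sum h1 (mem_Ico.mpr ⟨hs1, hsm⟩)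
  rw [sum_sub_distrib] at h3
  have h4 : ε / 2 ^ (m + 1 - s) ≤ ∑ t ∈ Ico 1 m, cLam R t (gcount 𝒞 Q S t) -
      ∑ t ∈ Ico 1 m, cLam R t (gcount 𝒞 Q' S' t) := by linarith
  have h5 : (1 : ℝ) ≤ 2 ^ (m + 1) / ε * (ε / 2 ^ (m + 1 - s)) := by
    have e1 : (2 : ℝ) ^ (m + 1) = 2 ^ (m + 1 - s) * 2 ^ s := by
      rw [← pow_add]
      congr 1
      omega
    have e2 : (2 : ℝ) ^ (m + 1) / ε * (ε / 2 ^ (m + 1 - s)) = 2 ^ s := by
      rw [e1]
      field_simp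
    rw [e2]
    exact one_le_pow₀ (by norm_num)
  have h6 : (0 : ℝ) ≤ 2 ^ (m + 1) / ε := by positivity
  have h7 := mul_le_mul_of_nonneg_left h4 h6
  unfold cPhi
  rw [mul_sub] at h7
  linarith

open Classical in
private noncomputable def cF (R n : ℕ) (Φ : ℝ) (j : ℕ) : ℝ :=
  ∑ q ∈ range (j + 1), if (q : ℝ) ≤ Φ then (n.choose q : ℝ) * (R.choose (j - q) : ℝ) else 0

private lemma cF_mono {R n n' : ℕ} {Φ Φ' : ℝ} (hn : n' ≤ n) (hΦ : Φ' ≤ Φ) (j : ℕ) :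
    cF R n' Φ' j ≤ cF R n Φ j := by
  unfold cF
  refine sum_le_sum fun q _ => ?_
  by_cases h : (q : ℝ) ≤ Φ'
  · rw [if_pos h, if_pos (h.trans hΦ)]
    refine mul_le_mul_of_nonneg_right ?_ (Nat.cast_nonneg _)
    exact_mod_cast Nat.choose_le_choose q hn
  · rw [if_neg h]
    split_ifs
    · positivity
    · exact le_refl 0

private lemma le_cF {R n : ℕ} {Φ : ℝ} (hΦ : 0 ≤ Φ) (j : ℕ) : (R.choose j : ℝ) ≤ cF R n Φ j := by
  unfold cF
  have h1 : ∀ q ∈ range (j + 1), (0 : ℝ) ≤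
      if (q : ℝ) ≤ Φ then (n.choose q : ℝ) * (R.choose (j - q) : ℝ) else 0 := by
    intro q _
    split_ifs
    · positivity
    · exact le_refl 0
  have h2 := single_le_sum h1 (mem_range.mpr (Nat.succ_pos j))
  refine le_trans (le_of_eq ?_) h2
  rw [if_pos (by simpa using hΦ)]
  simp

private lemma cF_succ (R n : ℕ) (Φ : ℝ) (j : ℕ) :
    cF R n Φ (j + 1) + cF R n (Φ - 1) j = cF R (n + 1) Φ (j + 1) := by
  unfold cF
  rw [sum_range_succ' _ (j + 1), sum_range_succ' _ (j + 1)]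
  have h1 : ∀ q ∈ range (j + 1),
      (if ((q + 1 : ℕ) : ℝ) ≤ Φ then ((n + 1).choose (q + 1) : ℝ) * (R.choose (j + 1 - (q + 1)) : ℝ) else 0) =
      (if ((q + 1 : ℕ) : ℝ) ≤ Φ then (n.choose (q + 1) : ℝ) * (R.choose (j + 1 - (q + 1)) : ℝ) else 0) +
      (if (q : ℝ) ≤ Φ - 1 then (n.choose q : ℝ) * (R.choose (j - q) : ℝ) else 0) := by
    intro q _
    have e : ((q + 1 : ℕ) : ℝ) ≤ Φ ↔ (q : ℝ) ≤ Φ - 1 := by
      push_cast
      constructor <;> intro h <;> linarith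
    have e2 : j + 1 - (q + 1) = j - q := by omega
    by_cases h : (q : ℝ) ≤ Φ - 1
    · rw [if_pos h, if_pos (e.mpr h), if_pos (e.mpr h), Nat.choose_succ_succ, e2]
      push_cast
      ring
    · rw [if_neg h, if_neg (fun h' => h (e.mp h')), if_neg (fun h' => h (e.mp h'))]
      ring
  rw [sum_congr rfl h1, sum_add_distrib]
  simp only [Nat.choose_zero_right]
  ring

private lemma gcount_le_choose (𝒞 : Finset ℕ → Prop) (Q S : Finset ℕ) (t : ℕ) :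
    gcount 𝒞 Q S t ≤ S.card.choose t := by
  classical
  unfold gcount
  refine (card_filter_le _ _).trans ?_
  rw [card_powersetCard]

private lemma gcount_split (𝒞 : Finset ℕ → Prop) (h𝒞 : ∀ X Y : Finset ℕ, X ⊆ Y → 𝒞 Y → 𝒞 X)
    (Q S S₂ : Finset ℕ) (v : ℕ)
    (hS₂ : ∀ y, y ∈ S.erase v → 𝒞 (insert y (insert v Q)) → y ∈ S₂) (j : ℕ) :
    gcount 𝒞 Q S (j + 1) ≤ gcount 𝒞 Q (S.erase v) (j + 1) + gcount 𝒞 (insert v Q) S₂ j := by
  classical
  unfold gcount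
  rw [← card_filter_add_card_filter_not
    (s := (powersetCard (j + 1) S).filter (fun T => 𝒞 (Q ∪ T))) (fun J => v ∉ J)]
  refine Nat.add_le_add ?_ ?_
  · refine card_le_card fun J hJ => ?_
    rw [mem_filter, mem_filter, mem_powersetCard] at hJ
    rw [mem_filter, mem_powersetCard]
    exact ⟨⟨subset_erase.mpr ⟨hJ.1.1.1, hJ.2⟩, hJ.1.1.2⟩, hJ.1.2⟩
  · refine card_le_card_of_injOn (fun J => J.erase v) ?_ ?_
    · intro J hJ
      rw [mem_coe, mem_filter, mem_filter, mem_powersetCard, not_not] at hJ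
      obtain ⟨⟨⟨hJS, hJc⟩, hJ𝒞⟩, hvJ⟩ := hJ
      rw [mem_coe, mem_filter, mem_powersetCard]
      refine ⟨⟨?_, ?_⟩, ?_⟩
      · intro y hy
        have hy' := mem_erase.mp hy
        refine hS₂ y (mem_erase.mpr ⟨hy'.1, hJS hy'.2⟩) (h𝒞 _ _ ?_ hJ𝒞)
        intro z hz
        rw [mem_insert, mem_insert] at hz
        rw [mem_union]
        rcases hz with rfl | rfl | hz
        · exact Or.inr hy'.2
        · exact Or.inr hvJ
        · exact Or.inl hz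
      · rw [card_erase_of_mem hvJ, hJc]
        rfl
      · refine h𝒞 _ _ ?_ hJ𝒞
        intro z hz
        rw [mem_union, mem_insert, mem_erase] at hz
        rw [mem_union]
        rcases hz with (rfl | hz) | hz
        · exact Or.inr hvJ
        · exact Or.inl hz
        · exact Or.inr hz.2
    · intro J hJ J' hJ' hJJ
      rw [mem_coe, mem_filter, mem_filter, not_not] at hJ hJ'
      have h1 : insert v (J.erase v) = insert v (J'.erase v) := by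
        simp only at hJJ
        rw [hJJ]
      rwa [insert_erase hJ.2, insert_erase hJ'.2] at h1

private lemma claim (𝒞 : Finset ℕ → Prop) (h𝒞 : ∀ X Y : Finset ℕ, X ⊆ Y → 𝒞 Y → 𝒞 X)
    (H : Finset ℕ) (m R : ℕ) (ε : ℝ) (hε : 0 < ε) (hε1 : ε ≤ 1) (hm : 2 ≤ m) (hR : 2 * m ≤ R)
    (hbad : ∀ S ⊆ H, R ≤ S.card → (gcount 𝒞 ∅ S m : ℝ) ≤ (1 - ε) * (S.card.choose m : ℝ)) :
    ∀ (n : ℕ) (S Q : Finset ℕ), S.card = n → S ⊆ H → (∀ y ∈ S, 𝒞 (insert y Q)) → ∀ j : ℕ,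
      (gcount 𝒞 Q S j : ℝ) ≤ cF R n (cPhi 𝒞 m R ε Q S) j := by
  classical
  intro n
  induction n using Nat.strong_induction_on with
  | _ n ih =>
    intro S Q hSn hSH hmem j
    have hΦ := cPhi_nonneg 𝒞 hε hR Q S
    rcases Nat.lt_or_ge S.card R with hlt | hge
    · refine le_trans ?_ (le_cF hΦ j)
      have := (gcount_le_choose 𝒞 Q S j).trans (Nat.choose_le_choose j hlt.le)
      exact_mod_cast this
    rcases Nat.eq_zero_or_pos j with hj | hj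
    · refine le_trans ?_ (le_cF hΦ j)
      have := gcount_le_choose 𝒞 Q S j
      rw [hj, Nat.choose_zero_right] at this
      rw [hj, Nat.choose_zero_right]
      exact_mod_cast this
    obtain ⟨j', rfl⟩ : ∃ j', j = j' + 1 := ⟨j - 1, by omega⟩
    obtain ⟨n', rfl⟩ : ∃ n', n = n' + 1 := ⟨n - 1, by omega⟩
    have hm' : (gcount 𝒞 Q S m : ℝ) ≤ (1 - ε) * (S.card.choose m : ℝ) := by
      refine le_trans ?_ (hbad S hSH hge)
      exact_mod_cast gcount_mono 𝒞 h𝒞 (empty_subset Q) (Subset.refl S) m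
    obtain ⟨s, hs1, hsm, hgs, v, hv, hgv⟩ := pick 𝒞 h𝒞 Q S m ε hε hm (hR.trans hge) hmem hm'
    set S₂ : Finset ℕ := (S.erase v).filter (fun y => 𝒞 (insert y (insert v Q))) with hS₂
    have hS₂sub : S₂ ⊆ S.erase v := filter_subset _ _
    have hc1 : (S.erase v).card = n' := by
      rw [card_erase_of_mem hv, hSn]
      rfl
    have hc2 : S₂.card ≤ n' := hc1 ▸ card_le_card hS₂sub
    have hsplit := gcount_split 𝒞 h𝒞 Q S S₂ v (fun y hy hy2 => by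
      rw [hS₂, mem_filter]
      exact ⟨hy, hy2⟩) j'
    have ih1 := ih n' (Nat.lt_succ_self n') (S.erase v) Q hc1
      ((erase_subset v S).trans hSH) (fun y hy => hmem y (mem_of_mem_erase hy)) (j' + 1)
    have ih2 := ih S₂.card (Nat.lt_succ_of_le hc2) S₂ (insert v Q) rfl
      ((hS₂sub.trans (erase_subset v S)).trans hSH) (fun y hy => by
        rw [hS₂, mem_filter] at hy
        exact hy.2) j'
    have hΦ1 : cPhi 𝒞 m R ε Q (S.erase v) ≤ cPhi 𝒞 m R ε Q S :=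
      cPhi_mono 𝒞 h𝒞 hε hR (Subset.refl Q) (erase_subset v S)
    have hΦ2 : cPhi 𝒞 m R ε (insert v Q) S₂ ≤ cPhi 𝒞 m R ε Q S - 1 := by
      refine cPhi_drop 𝒞 h𝒞 hε hR (subset_insert v Q) (hS₂sub.trans (erase_subset v S)) hs1 hsm ?_
      have hpow : (4 : ℝ) ≤ 2 ^ (m + 1 - s) := by
        calc (4 : ℝ) = 2 ^ 2 := by norm_num
          _ ≤ 2 ^ (m + 1 - s) := pow_le_pow_right₀ (by norm_num) (by omega)
      have hpow2 : (2 : ℝ) ≤ 2 ^ (m - s) := by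
        calc (2 : ℝ) = 2 ^ 1 := by norm_num
          _ ≤ 2 ^ (m - s) := pow_le_pow_right₀ (by norm_num) (by omega)
      have hx0 : 0 ≤ ε / 2 ^ (m + 1 - s) := by positivity
      have hx : ε / 2 ^ (m + 1 - s) ≤ 1 / 4 := by
        rw [div_le_div_iff₀ (by positivity) (by norm_num)]
        nlinarith
      have hx2 : ε / 2 ^ (m - s) ≤ 1 / 2 := by
        rw [div_le_div_iff₀ (by positivity) (by norm_num)]
        nlinarith
      have hCn : (0 : ℝ) ≤ (S.card.choose s : ℝ) := Nat.cast_nonneg _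
      have hCR : (R.choose s : ℝ) ≤ (S.card.choose s : ℝ) := by
        exact_mod_cast Nat.choose_le_choose s hge
      have hgC : (gcount 𝒞 Q S s : ℝ) ≤ (S.card.choose s : ℝ) := by
        exact_mod_cast gcount_le_choose 𝒞 Q S s
      refine cLam_drop (by omega) hx0 hx ?_ ?_
      · unfold cRho
        nlinarith
      · have hg2 : (gcount 𝒞 (insert v Q) S₂ s : ℝ) ≤ (gcount 𝒞 (insert v Q) (S.erase v) s : ℝ) := by
          exact_mod_cast gcount_mono 𝒞 h𝒞 (Subset.refl _) hS₂sub s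
        nlinarith
    calc (gcount 𝒞 Q S (j' + 1) : ℝ)
        ≤ (gcount 𝒞 Q (S.erase v) (j' + 1) : ℝ) + (gcount 𝒞 (insert v Q) S₂ j' : ℝ) := by
          exact_mod_cast hsplit
      _ ≤ cF R n' (cPhi 𝒞 m R ε Q S) (j' + 1) + cF R n' (cPhi 𝒞 m R ε Q S - 1) j' :=
          add_le_add (ih1.trans (cF_mono le_rfl hΦ1 _)) (ih2.trans (cF_mono hc2 hΦ2 _))
      _ = cF R (n' + 1) (cPhi 𝒞 m R ε Q S) (j' + 1) := cF_succ _ _ _ _

private lemma cLam_top {N R m s : ℕ} (hR : 2 * m ≤ R) (hRN : R ≤ N) (hs1 : 1 ≤ s) (hsm : s < m) :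
    cLam R s (N.choose s) ≤ m * Real.log (8 * N / R) := by
  have hsR : s ≤ R := by omega
  have hRpos : (0 : ℝ) < R := by
    have : 0 < R := by omega
    exact_mod_cast this
  have hNR : (R : ℝ) ≤ N := by exact_mod_cast hRN
  have hCR : (0 : ℝ) < (R.choose s : ℝ) := by exact_mod_cast Nat.choose_pos hsR
  have hCN : (R.choose s : ℝ) ≤ (N.choose s : ℝ) := by exact_mod_cast Nat.choose_le_choose s hRN
  have hfac : (0 : ℝ) < (Nat.factorial s : ℝ) := by exact_mod_cast Nat.factorial_pos s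
  have h1 : (N.choose s : ℝ) ≤ (N : ℝ) ^ s / (Nat.factorial s : ℝ) := Nat.choose_le_pow_div s N
  have h2 : (((R + 1 - s : ℕ) : ℝ) ^ s) / (Nat.factorial s : ℝ) ≤ (R.choose s : ℝ) :=
    Nat.pow_le_choose s R
  have h3 : (R : ℝ) / 2 ≤ ((R + 1 - s : ℕ) : ℝ) := by
    have : R ≤ 2 * (R + 1 - s) := by omega
    have h4 : (R : ℝ) ≤ 2 * ((R + 1 - s : ℕ) : ℝ) := by exact_mod_cast this
    linarith
  have h4 : ((R : ℝ) / 2) ^ s / (Nat.factorial s : ℝ) ≤ (R.choose s : ℝ) := by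
    refine le_trans ?_ h2
    exact div_le_div_of_nonneg_right (pow_le_pow_left₀ (by positivity) h3 s) hfac.le
  have h5 : (N.choose s : ℝ) / cRho R s ≤ 4 * (2 * N / R) ^ s := by
    unfold cRho
    have h6 : (N.choose s : ℝ) ≤ (2 * N / R) ^ s * (R.choose s : ℝ) := by
      calc (N.choose s : ℝ) ≤ (N : ℝ) ^ s / (Nat.factorial s : ℝ) := h1
        _ = (2 * N / R) ^ s * (((R : ℝ) / 2) ^ s / (Nat.factorial s : ℝ)) := by
            rw [← mul_div_assoc, ← mul_pow]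
            congr 2
            field_simp
        _ ≤ (2 * N / R) ^ s * (R.choose s : ℝ) :=
            mul_le_mul_of_nonneg_left h4 (by positivity)
    rw [div_le_iff₀ (by positivity)]
    linarith
  unfold cLam
  have h7 : max (N.choose s : ℝ) (cRho R s) = (N.choose s : ℝ) := by
    refine max_eq_left ?_
    unfold cRho
    linarith
  rw [h7]
  have hr := cRho_pos hsR
  have h8 : (1 : ℝ) ≤ 2 * N / R := by
    rw [le_div_iff₀ hRpos]
    linarith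
  have h9 : Real.log ((N.choose s : ℝ) / cRho R s) ≤ Real.log (4 * (2 * N / R) ^ s) :=
    Real.log_le_log (div_pos (by linarith) hr) h5
  have h10 : Real.log (4 * (2 * N / R) ^ s) = Real.log 4 + s * Real.log (2 * N / R) := by
    rw [Real.log_mul (by norm_num) (by positivity), Real.log_pow]
  have h11 : Real.log (8 * N / R) = Real.log 4 + Real.log (2 * N / R) := by
    rw [← Real.log_mul (by norm_num) (by positivity)]
    congr 1
    ring
  have h12 : 0 ≤ Real.log 4 := Real.log_nonneg (by norm_num)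
  have h13 : 0 ≤ Real.log (2 * N / R) := Real.log_nonneg h8
  have hs1' : (1 : ℝ) ≤ s := by exact_mod_cast hs1
  have hsm' : (s : ℝ) ≤ m := by exact_mod_cast hsm.le
  calc Real.log ((N.choose s : ℝ) / cRho R s) ≤ Real.log 4 + s * Real.log (2 * N / R) := by
        rw [← h10]
        exact h9
    _ ≤ s * Real.log 4 + s * Real.log (2 * N / R) := by nlinarith
    _ = s * Real.log (8 * N / R) := by rw [h11]; ring
    _ ≤ m * Real.log (8 * N / R) := by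
        refine mul_le_mul_of_nonneg_right hsm' ?_
        rw [h11]
        linarith

open Classical in
theorem cont (𝒞 : Finset ℕ → Prop) (h𝒞 : ∀ X Y : Finset ℕ, X ⊆ Y → 𝒞 Y → 𝒞 X)
    (H : Finset ℕ) (m R M : ℕ) (ε : ℝ) (hε : 0 < ε) (hε1 : ε ≤ 1) (hm : 2 ≤ m) (hR : 2 * m ≤ R)
    (hRH : R ≤ H.card)
    (hbad : ∀ S ⊆ H, R ≤ S.card → (gcount 𝒞 ∅ S m : ℝ) ≤ (1 - ε) * (S.card.choose m : ℝ)) :
    (((powersetCard M H).filter (fun X => 𝒞 X)).card : ℝ) ≤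
      ∑ q ∈ (range (M + 1)).filter (fun q : ℕ => (q : ℝ) ≤
        (2 ^ (m + 1) * (m : ℝ) ^ 2 / ε) * Real.log (8 * H.card / R)),
        (H.card.choose q : ℝ) * (R.choose (M - q) : ℝ) := by
  set H' : Finset ℕ := H.filter (fun y => 𝒞 {y}) with hH'
  have hH'H : H' ⊆ H := filter_subset _ _
  have h1 : ((powersetCard M H).filter (fun X => 𝒞 X)).card ≤ gcount 𝒞 ∅ H' M := by
    unfold gcount
    refine card_le_card fun X hX => ?_
    rw [mem_filter, mem_powersetCard] at hX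
    rw [mem_filter, mem_powersetCard, empty_union]
    refine ⟨⟨fun y hy => ?_, hX.1.2⟩, hX.2⟩
    rw [hH', mem_filter]
    exact ⟨hX.1.1 hy, h𝒞 _ _ (singleton_subset_iff.mpr hy) hX.2⟩
  have h2 := claim 𝒞 h𝒞 H m R ε hε hε1 hm hR hbad H'.card H' ∅ rfl hH'H (fun y hy => by
    rw [hH', mem_filter] at hy
    exact hy.2) M
  have hlog : 0 ≤ Real.log (8 * H.card / R) := by
    have hRpos : (0 : ℝ) < R := by
      have : 0 < R := by omega
      exact_mod_cast this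
    have hNR : (R : ℝ) ≤ H.card := by exact_mod_cast hRH
    refine Real.log_nonneg ?_
    rw [le_div_iff₀ hRpos]
    linarith
  have h3 : cPhi 𝒞 m R ε ∅ H' ≤ (2 ^ (m + 1) * (m : ℝ) ^ 2 / ε) * Real.log (8 * H.card / R) := by
    unfold cPhi
    have h4 : ∑ s ∈ Ico 1 m, cLam R s (gcount 𝒞 ∅ H' s) ≤
        ∑ s ∈ Ico 1 m, (m * Real.log (8 * H.card / R) : ℝ) := by
      refine sum_le_sum fun s hs => ?_
      rw [mem_Ico] at hs
      refine le_trans (cLam_mono (by omega) ?_) (cLam_top hR hRH hs.1 hs.2)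
      have := (gcount_le_choose 𝒞 ∅ H' s).trans (Nat.choose_le_choose s (card_le_card hH'H))
      exact_mod_cast this
    rw [sum_const, Nat.card_Ico, nsmul_eq_mul] at h4
    have h5 : ((m - 1 : ℕ) : ℝ) * (m * Real.log (8 * H.card / R)) ≤
        (m : ℝ) * (m * Real.log (8 * H.card / R)) := by
      refine mul_le_mul_of_nonneg_right ?_ (by positivity)
      have : m - 1 ≤ m := Nat.sub_le _ _
      exact_mod_cast this
    have h6 : (0 : ℝ) ≤ 2 ^ (m + 1) / ε := by positivity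
    calc 2 ^ (m + 1) / ε * ∑ s ∈ Ico 1 m, cLam R s (gcount 𝒞 ∅ H' s)
        ≤ 2 ^ (m + 1) / ε * ((m : ℝ) * (m * Real.log (8 * H.card / R))) :=
          mul_le_mul_of_nonneg_left (h4.trans h5) h6
      _ = (2 ^ (m + 1) * (m : ℝ) ^ 2 / ε) * Real.log (8 * H.card / R) := by ring
  have h7 : (((powersetCard M H).filter (fun X => 𝒞 X)).card : ℝ) ≤
      cF R H.card ((2 ^ (m + 1) * (m : ℝ) ^ 2 / ε) * Real.log (8 * H.card / R)) M := by
    refine le_trans ?_ (h2.trans (cF_mono (card_le_card hH'H) h3 M))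
    exact_mod_cast h1
  refine h7.trans (le_of_eq ?_)
  unfold cF
  rw [sum_filter]

end Pool.Agent.H21.TY
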