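import Mathlib

/-!
[H21 TY PICK]  The choice of the vertex in the container algorithm.

`𝒞` is a family of finite sets closed under subsets; `gcount 𝒞 Q S t` is the number of `t`-subsets `T` of
`S` with `Q ∪ T ∈ 𝒞`.

Proof of `gcount_mono`: inclusion of the filtered sets (`Q ∪ T ⊆ Q' ∪ T`).

Proof of `pick`.  `n = |S|`, `η s = ε / 2^(m-s)` (so `η m = ε`, `η s = η (s+1)/2` for `s < m`).  Put
`d t = 1 - g_t/C(n,t)`, `g_t = gcount 𝒞 Q S t`.  `d 1 = 0` by `h1` (`g_1 = n`), `d m ≥ ε = η m` by `hm'`.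
Let `t ≥ 2` be minimal with `d t ≥ η t`, `s = t - 1 ∈ [1, m-1]`; then `d s < η s` (for `s = 1`:
`d 1 = 0 < η 1`), i.e. the first conclusion.
Let `Z` be the set of pairs `(v, T')` with `v ∈ S`, `T' ∈ powersetCard s (S \ {v})`, `𝒞 (Q ∪ T')` and
`¬ 𝒞 (insert v Q ∪ T')`.  With `T = insert v T'`: the pairs `(T, v)`, `T ∈ powersetCard t S`, `v ∈ T`,
`¬ 𝒞 (Q ∪ T)` are `t (C(n,t) - g_t)` many; those with moreover `¬ 𝒞 (Q ∪ (T \ {v}))` inject into the
pairs `(T', v)` with `T' ∈ powersetCard s S`, `¬ 𝒞 (Q ∪ T')`, `v ∈ S \ T'`: these are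
`(C(n,s) - g_s)(n - s)` many, and `C(n,s) (n-s) = t C(n,t)` (`Nat.choose_succ_right_eq`).  So
`|Z| ≥ t C(n,t) (d t - d s) ≥ t C(n,t) (η t)/2 = n C(n-1,s) (η t)/2` (`t C(n,t) = n C(n-1,t-1)`,
`Nat.add_one_mul_choose_eq` / `Nat.succ_mul_choose_eq`).  Some `v ∈ S` has at least
`C(n-1,s) (η t)/2` of the pairs, i.e.
`gcount 𝒞 Q (S.erase v) s - gcount 𝒞 (insert v Q) (S.erase v) s ≥ C(n-1,s) (η t)/2` (the sets `T'` with
`𝒞 (insert v Q ∪ T')` satisfy `𝒞 (Q ∪ T')`), and `gcount 𝒞 Q (S.erase v) s ≤ gcount 𝒞 Q S s`.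
Finally `C(n-1,s) ≥ C(n,s)/2` as `n ≥ 2m ≥ 2s` (`C(n,s) (n-s) = n C(n-1,s)`).
-/

namespace Pool.Agent.H21.TY

open Finset

open Classical in
/-- The number of `t`-subsets `T` of `S` with `Q ∪ T ∈ 𝒞`. -/
noncomputable def gcount (𝒞 : Finset ℕ → Prop) (Q S : Finset ℕ) (t : ℕ) : ℕ :=
  ((powersetCard t S).filter (fun T => 𝒞 (Q ∪ T))).card

theorem gcount_mono (𝒞 : Finset ℕ → Prop) (h𝒞 : ∀ X Y : Finset ℕ, X ⊆ Y → 𝒞 Y → 𝒞 X)
    {Q Q' S S' : Finset ℕ} (hQ : Q ⊆ Q') (hS : S' ⊆ S) (t : ℕ) :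
    gcount 𝒞 Q' S' t ≤ gcount 𝒞 Q S t := by
  classical
  unfold gcount
  refine card_le_card ?_
  intro T hT
  rw [mem_filter] at hT ⊢
  refine ⟨powersetCard_mono hS hT.1, ?_⟩
  exact h𝒞 _ _ (union_subset_union_left hQ) hT.2

open Classical in
private noncomputable def bcount (𝒞 : Finset ℕ → Prop) (Q S : Finset ℕ) (t : ℕ) : ℕ :=
  ((powersetCard t S).filter (fun T => ¬ 𝒞 (Q ∪ T))).card

private theorem gcount_add_bcount (𝒞 : Finset ℕ → Prop) (Q S : Finset ℕ) (t : ℕ) :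
    gcount 𝒞 Q S t + bcount 𝒞 Q S t = S.card.choose t := by
  classical
  have h1 := card_filter_add_card_filter_not (s := powersetCard t S) (fun T => 𝒞 (Q ∪ T))
  rw [card_powersetCard] at h1
  rw [← h1]
  unfold gcount bcount
  congr

private theorem sum_b1 (𝒞 : Finset ℕ → Prop) (Q S : Finset ℕ) (s : ℕ) :
    ∑ v ∈ S, bcount 𝒞 (insert v Q) (S.erase v) s = (s + 1) * bcount 𝒞 Q S (s + 1) := by
  classical
  have h1 : ∑ v ∈ S, bcount 𝒞 (insert v Q) (S.erase v) s =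
      (S.sigma (fun v => (powersetCard s (S.erase v)).filter
        (fun T => ¬ 𝒞 (insert v Q ∪ T)))).card := by
    rw [card_sigma]
    refine sum_congr rfl fun v _ => ?_
    unfold bcount
    congr
  have h2 : (s + 1) * bcount 𝒞 Q S (s + 1) =
      (((powersetCard (s + 1) S).filter (fun T => ¬ 𝒞 (Q ∪ T))).sigma (fun T => T)).card := by
    rw [card_sigma]
    have h3 : ∀ T ∈ (powersetCard (s + 1) S).filter (fun T => ¬ 𝒞 (Q ∪ T)), T.card = s + 1 := by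
      intro T hT
      exact (mem_powersetCard.1 (mem_filter.1 hT).1).2
    rw [sum_congr rfl h3, sum_const, smul_eq_mul, mul_comm]
    unfold bcount
    congr
  rw [h1, h2]
  refine card_bij' (fun x _ => ⟨insert x.1 x.2, x.1⟩) (fun x _ => ⟨x.2, x.1.erase x.2⟩) ?_ ?_ ?_ ?_
  · rintro ⟨v, T⟩ hx
    rw [mem_sigma, mem_filter, mem_powersetCard] at hx
    obtain ⟨hv, ⟨hT1, hT2⟩, hT3⟩ := hx
    have hvT : v ∉ T := fun h => (mem_erase.1 (hT1 h)).1 rfl
    rw [mem_sigma, mem_filter, mem_powersetCard]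
    refine ⟨⟨⟨?_, ?_⟩, ?_⟩, mem_insert_self _ _⟩
    · exact insert_subset hv (hT1.trans (erase_subset _ _))
    · rw [card_insert_of_notMem hvT]
      exact congrArg (· + 1) hT2
    · intro h
      apply hT3
      have e : insert v Q ∪ T = Q ∪ insert v T := by
        rw [insert_union, union_insert]
      exact e.symm ▸ h
  · rintro ⟨T, v⟩ hx
    rw [mem_sigma, mem_filter, mem_powersetCard] at hx
    obtain ⟨⟨⟨hT1, hT2⟩, hT3⟩, hv⟩ := hx
    have hv' : v ∈ T := hv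
    rw [mem_sigma, mem_filter, mem_powersetCard]
    refine ⟨hT1 hv', ⟨?_, ?_⟩, ?_⟩
    · exact erase_subset_erase _ hT1
    · have h4 := card_erase_of_mem hv'
      have h5 : T.card = s + 1 := hT2
      show (T.erase v).card = s
      rw [h4, h5]
      rfl
    · intro h
      apply hT3
      have e : insert v Q ∪ T.erase v = Q ∪ T := by
        rw [insert_union, ← union_insert, insert_erase hv']
      exact e ▸ h
  · rintro ⟨v, T⟩ hx
    rw [mem_sigma, mem_filter, mem_powersetCard] at hx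
    obtain ⟨hv, ⟨hT1, hT2⟩, hT3⟩ := hx
    have hvT : v ∉ T := fun h => (mem_erase.1 (hT1 h)).1 rfl
    show (⟨v, (insert v T).erase v⟩ : (_ : ℕ) × Finset ℕ) = ⟨v, T⟩
    rw [erase_insert hvT]
  · rintro ⟨T, v⟩ hx
    rw [mem_sigma] at hx
    have hv' : v ∈ T := hx.2
    show (⟨insert v (T.erase v), v⟩ : (_ : Finset ℕ) × ℕ) = ⟨T, v⟩
    rw [insert_erase hv']

private theorem sum_b2 (𝒞 : Finset ℕ → Prop) (Q S : Finset ℕ) (s : ℕ) :
    ∑ v ∈ S, bcount 𝒞 Q (S.erase v) s = (S.card - s) * bcount 𝒞 Q S s := by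
  classical
  have h1 : ∑ v ∈ S, bcount 𝒞 Q (S.erase v) s =
      (S.sigma (fun v => (powersetCard s (S.erase v)).filter
        (fun T => ¬ 𝒞 (Q ∪ T)))).card := by
    rw [card_sigma]
    refine sum_congr rfl fun v _ => ?_
    unfold bcount
    congr
  have h2 : (S.card - s) * bcount 𝒞 Q S s =
      (((powersetCard s S).filter (fun T => ¬ 𝒞 (Q ∪ T))).sigma (fun T => S \ T)).card := by
    rw [card_sigma]
    have h3 : ∀ T ∈ (powersetCard s S).filter (fun T => ¬ 𝒞 (Q ∪ T)),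
        (S \ T).card = S.card - s := by
      intro T hT
      have h4 := mem_powersetCard.1 (mem_filter.1 hT).1
      rw [card_sdiff_of_subset h4.1, h4.2]
    rw [sum_congr rfl h3, sum_const, smul_eq_mul, mul_comm]
    unfold bcount
    congr
  rw [h1, h2]
  refine card_bij' (fun x _ => ⟨x.2, x.1⟩) (fun x _ => ⟨x.2, x.1⟩) ?_ ?_ ?_ ?_
  · rintro ⟨v, T⟩ hx
    rw [mem_sigma, mem_filter, mem_powersetCard] at hx
    obtain ⟨hv, ⟨hT1, hT2⟩, hT3⟩ := hx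
    have hvT : v ∉ T := fun h => (mem_erase.1 (hT1 h)).1 rfl
    rw [mem_sigma, mem_filter, mem_powersetCard]
    exact ⟨⟨⟨hT1.trans (erase_subset _ _), hT2⟩, hT3⟩, mem_sdiff.2 ⟨hv, hvT⟩⟩
  · rintro ⟨T, v⟩ hx
    rw [mem_sigma, mem_filter, mem_powersetCard] at hx
    obtain ⟨⟨⟨hT1, hT2⟩, hT3⟩, hv⟩ := hx
    have hv' : v ∈ S \ T := hv
    rw [mem_sdiff] at hv'
    rw [mem_sigma, mem_filter, mem_powersetCard]
    refine ⟨hv'.1, ⟨?_, hT2⟩, hT3⟩
    intro x hx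
    refine mem_erase.2 ⟨?_, hT1 hx⟩
    rintro rfl
    exact hv'.2 hx
  · rintro ⟨v, T⟩ hx
    rfl
  · rintro ⟨T, v⟩ hx
    rfl

theorem pick (𝒞 : Finset ℕ → Prop) (h𝒞 : ∀ X Y : Finset ℕ, X ⊆ Y → 𝒞 Y → 𝒞 X)
    (Q S : Finset ℕ) (m : ℕ) (ε : ℝ) (hε : 0 < ε) (hm : 2 ≤ m) (hS : 2 * m ≤ S.card)
    (h1 : ∀ y ∈ S, 𝒞 (insert y Q))
    (hm' : (gcount 𝒞 Q S m : ℝ) ≤ (1 - ε) * (S.card.choose m : ℝ)) :
    ∃ s, 1 ≤ s ∧ s < m ∧
      (1 - ε / 2 ^ (m - s)) * (S.card.choose s : ℝ) < (gcount 𝒞 Q S s : ℝ) ∧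
      ∃ v ∈ S, (gcount 𝒞 (insert v Q) (S.erase v) s : ℝ) ≤
        (gcount 𝒞 Q S s : ℝ) - ε / 2 ^ (m + 1 - s) * (S.card.choose s : ℝ) := by
  classical
  have hgb : ∀ t, (gcount 𝒞 Q S t : ℝ) + (bcount 𝒞 Q S t : ℝ) = (S.card.choose t : ℝ) := by
    intro t
    exact_mod_cast gcount_add_bcount 𝒞 Q S t
  have hex : ∃ t, 2 ≤ t ∧ t ≤ m ∧
      ε / 2 ^ (m - t) * (S.card.choose t : ℝ) ≤ (bcount 𝒞 Q S t : ℝ) := by
    refine ⟨m, hm, le_refl m, ?_⟩
    rw [Nat.sub_self, pow_zero, div_one]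
    have := hgb m
    linarith
  obtain ⟨ht2, htm, htb⟩ := Nat.find_spec hex
  set t := Nat.find hex with ht
  obtain ⟨s, hs⟩ : ∃ s, t = s + 1 := ⟨t - 1, by omega⟩
  rw [hs] at ht2 htm htb
  have hs1 : 1 ≤ s := by omega
  have hsm : s < m := by omega
  have hpow : (2 : ℝ) ^ (m - s) = 2 * 2 ^ (m - (s + 1)) := by
    have e : m - s = (m - (s + 1)) + 1 := by omega
    rw [e, pow_succ]
    ring
  have hpow2 : (2 : ℝ) ^ (m + 1 - s) = 4 * 2 ^ (m - (s + 1)) := by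
    have e : m + 1 - s = (m - (s + 1)) + 2 := by omega
    rw [e, pow_add]
    ring
  have hP : (0 : ℝ) < 2 ^ (m - (s + 1)) := by positivity
  have hCs : (0 : ℝ) < (S.card.choose s : ℝ) := by
    exact_mod_cast Nat.choose_pos (by omega : s ≤ S.card)
  have hbs : (bcount 𝒞 Q S s : ℝ) < ε / 2 ^ (m - s) * (S.card.choose s : ℝ) := by
    rcases Nat.lt_or_ge s 2 with hs2 | hs2
    · have hs1' : s = 1 := by omega
      subst hs1'
      have h0 : bcount 𝒞 Q S 1 = 0 := by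
        unfold bcount
        rw [card_eq_zero, filter_eq_empty_iff]
        intro T hT h
        apply h
        obtain ⟨hT1, hT2⟩ := mem_powersetCard.1 hT
        obtain ⟨y, rfl⟩ := card_eq_one.1 hT2
        have e : Q ∪ {y} = insert y Q := by
          rw [union_comm, insert_eq]
        rw [e]
        exact h1 y (hT1 (mem_singleton_self y))
      rw [h0, Nat.cast_zero]
      positivity
    · have h2 := Nat.find_min hex (m := s) (by omega)
      by_contra h3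
      exact h2 ⟨hs2, by omega, not_lt.1 h3⟩
  refine ⟨s, hs1, hsm, ?_, ?_⟩
  · have := hgb s
    nlinarith
  -- averaging
  have hsn : s ≤ S.card := by omega
  have hnpos : (0 : ℝ) < (S.card : ℝ) := by
    have : 0 < S.card := by omega
    exact_mod_cast this
  have hb1 : ∑ v ∈ S, (bcount 𝒞 (insert v Q) (S.erase v) s : ℝ) =
      ((s : ℝ) + 1) * (bcount 𝒞 Q S (s + 1) : ℝ) := by
    exact_mod_cast sum_b1 𝒞 Q S s
  have hb2 : ∑ v ∈ S, (bcount 𝒞 Q (S.erase v) s : ℝ) =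
      ((S.card : ℝ) - s) * (bcount 𝒞 Q S s : ℝ) := by
    have h2 := sum_b2 𝒞 Q S s
    rw [← Nat.cast_sub hsn]
    exact_mod_cast h2
  have hch : (S.card.choose (s + 1) : ℝ) * ((s : ℝ) + 1) =
      (S.card.choose s : ℝ) * ((S.card : ℝ) - s) := by
    rw [← Nat.cast_sub hsn]
    exact_mod_cast Nat.choose_succ_right_eq S.card s
  have hns : (S.card : ℝ) ≤ 2 * ((S.card : ℝ) - s) := by
    have h2 : 2 * s ≤ S.card := by omega
    have h3 : (2 : ℝ) * s ≤ S.card := by exact_mod_cast h2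
    linarith
  have hsum : ∑ v ∈ S, ε / 2 ^ (m + 1 - s) * (S.card.choose s : ℝ) ≤
      ∑ v ∈ S, ((bcount 𝒞 (insert v Q) (S.erase v) s : ℝ) -
        (bcount 𝒞 Q (S.erase v) s : ℝ)) := by
    rw [sum_sub_distrib, hb1, hb2, sum_const, nsmul_eq_mul, hpow2]
    rw [hpow] at hbs
    have hs0 : (0 : ℝ) ≤ (s : ℝ) := Nat.cast_nonneg s
    have hns0 : (0 : ℝ) ≤ (S.card : ℝ) - s := by linarith
    have a1 : ((s : ℝ) + 1) * (ε / 2 ^ (m - (s + 1)) * (S.card.choose (s + 1) : ℝ)) ≤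
        ((s : ℝ) + 1) * (bcount 𝒞 Q S (s + 1) : ℝ) :=
      mul_le_mul_of_nonneg_left htb (by linarith)
    have a2 : ((S.card : ℝ) - s) * (bcount 𝒞 Q S s : ℝ) ≤
        ((S.card : ℝ) - s) * (ε / (2 * 2 ^ (m - (s + 1))) * (S.card.choose s : ℝ)) :=
      mul_le_mul_of_nonneg_left hbs.le hns0
    have a3 : ((s : ℝ) + 1) * (ε / 2 ^ (m - (s + 1)) * (S.card.choose (s + 1) : ℝ)) =
        ε / 2 ^ (m - (s + 1)) * ((S.card.choose s : ℝ) * ((S.card : ℝ) - s)) := by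
      rw [← hch]
      ring
    have a4 : ((S.card : ℝ) - s) * (ε / (2 * 2 ^ (m - (s + 1))) * (S.card.choose s : ℝ)) =
        ε / 2 ^ (m - (s + 1)) * ((S.card.choose s : ℝ) * ((S.card : ℝ) - s)) / 2 := by
      field_simp
    have a5 : (S.card : ℝ) * (ε / (4 * 2 ^ (m - (s + 1))) * (S.card.choose s : ℝ)) =
        ε / 2 ^ (m - (s + 1)) * ((S.card.choose s : ℝ) * (S.card : ℝ)) / 4 := by
      field_simp
    rw [a5]
    have a6 : ε / 2 ^ (m - (s + 1)) * ((S.card.choose s : ℝ) * (S.card : ℝ)) ≤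
        ε / 2 ^ (m - (s + 1)) * ((S.card.choose s : ℝ) * (2 * ((S.card : ℝ) - s))) := by
      apply mul_le_mul_of_nonneg_left _ (by positivity)
      exact mul_le_mul_of_nonneg_left hns hCs.le
    have a7 : ε / 2 ^ (m - (s + 1)) * ((S.card.choose s : ℝ) * (2 * ((S.card : ℝ) - s))) =
        2 * (ε / 2 ^ (m - (s + 1)) * ((S.card.choose s : ℝ) * ((S.card : ℝ) - s))) := by ring
    rw [a3] at a1
    rw [a4] at a2
    rw [a7] at a6
    linarith
  have hSne : S.Nonempty := card_pos.1 (by omega)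
  obtain ⟨v, hv, hvv⟩ := exists_le_of_sum_le hSne hsum
  refine ⟨v, hv, ?_⟩
  have hA : (gcount 𝒞 (insert v Q) (S.erase v) s : ℝ) +
      (bcount 𝒞 (insert v Q) (S.erase v) s : ℝ) = ((S.erase v).card.choose s : ℝ) := by
    exact_mod_cast gcount_add_bcount 𝒞 (insert v Q) (S.erase v) s
  have hB : (gcount 𝒞 Q (S.erase v) s : ℝ) +
      (bcount 𝒞 Q (S.erase v) s : ℝ) = ((S.erase v).card.choose s : ℝ) := by
    exact_mod_cast gcount_add_bcount 𝒞 Q (S.erase v) s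
  have hC : (gcount 𝒞 Q (S.erase v) s : ℝ) ≤ (gcount 𝒞 Q S s : ℝ) := by
    exact_mod_cast gcount_mono 𝒞 h𝒞 (subset_refl Q) (erase_subset v S) s
  linarith

end Pool.Agent.H21.TY
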